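import Pool.Agent.N704.PJ.Loc1
import Pool.Agent.N874.JM.Stm

/-!
# Local analysis over `M` at the primes at which `f'(θ)` is a unit

Project JM (helper874), part JM/LOC1 (helper123), adapted from `N704/PJ/Loc1.lean` (helper704).
-/

set_option autoImplicit false
set_option linter.all false

open Polynomial IsDedekindDomain WithZero
open Pool.Agent.N874.PP (Ov Ev Sq1 U0)
open Pool.Agent.N352.PJ
open Pool.Agent.N874.PM (Lies)
open scoped Classical NNReal

namespace Pool.Agent.N123.JM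

open Pool.Agent.N704.PP (vx ev_of)
open Pool.Agent.N704.PJ (WV wv_le wv_lt wv_eq wv_sq)
open Pool.Agent.N874.JM (LocF)

variable {M Ω R O : Type} [Field M] [Field Ω] [Algebra M Ω] [CommRing R]
  [IsDedekindDomain R] [Algebra R M] [IsFractionRing R M] [CommRing O] [IsDedekindDomain O]
  [Algebra O Ω] [IsFractionRing O Ω] {w : HeightOneSpectrum R} {𝔓 : HeightOneSpectrum O}

/-- The map to the completion. -/
noncomputable def emb (M : Type) [Field M] {Ω O : Type} [Field Ω] [Algebra M Ω] [CommRing O]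
    [IsDedekindDomain O] [Algebra O Ω] [IsFractionRing O Ω] (𝔓 : HeightOneSpectrum O) :
    M →+* 𝔓.adicCompletion Ω :=
  (algebraMap Ω (𝔓.adicCompletion Ω)).comp (algebraMap M Ω)

theorem emb_comp (ι : w.adicCompletion M →+* 𝔓.adicCompletion Ω)
    (hι : ∀ x : M, ι (algebraMap M (w.adicCompletion M) x) =
      algebraMap Ω (𝔓.adicCompletion Ω) (algebraMap M Ω x)) :
    ι.comp (algebraMap M (w.adicCompletion M)) = emb M (Ω := Ω) 𝔓 := RingHom.ext hι

theorem vemb (a : M) : Valued.v (Γ₀ := WithZero (Multiplicative ℤ)) (emb M (Ω := Ω) 𝔓 a) =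
    𝔓.valuation Ω (algebraMap M Ω a) := vx 𝔓 _

theorem eval_emb (p : M[X]) (x : Ω) :
    (p.map (emb M (Ω := Ω) 𝔓)).eval (algebraMap Ω (𝔓.adicCompletion Ω) x) =
      algebraMap Ω (𝔓.adicCompletion Ω) (aeval x p) := by
  rw [eval_map, emb, ← hom_eval₂]
  rfl

/-- The local condition, evaluated. -/
theorem locF_eval (ι : w.adicCompletion M →+* 𝔓.adicCompletion Ω)
    (hι : ∀ x : M, ι (algebraMap M (w.adicCompletion M) x) =
      algebraMap Ω (𝔓.adicCompletion Ω) (algebraMap M Ω x))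
    {F : M[X]} {Θ : Ω} (hΘ : aeval Θ F = 0) {h : M[X]} (hl : LocF (w.adicCompletion M) F h) :
    ∃ (l : List ((w.adicCompletion M)[X] × (w.adicCompletion M)[X])) (s : 𝔓.adicCompletion Ω),
      (∀ p ∈ l, p.1.Monic ∧ IsCoprime (p.1.map ι) (F.map (emb M (Ω := Ω) 𝔓)) ∧
        p.1.map ι ∣ (p.2.map ι) ^ 2 - F.map (emb M (Ω := Ω) 𝔓)) ∧
      algebraMap Ω (𝔓.adicCompletion Ω) (aeval Θ h) * (l.map fun p =>
        (-1) ^ p.1.natDegree * (p.1.map ι).eval (algebraMap Ω (𝔓.adicCompletion Ω) Θ)).prod =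
          s ^ 2 := by
  obtain ⟨l, s, h1, h2⟩ := hl
  have hF : (F.map (algebraMap M (w.adicCompletion M))).map ι = F.map (emb M (Ω := Ω) 𝔓) := by
    rw [Polynomial.map_map, emb_comp ι hι]
  refine ⟨l, eval₂ ι (algebraMap Ω (𝔓.adicCompletion Ω) Θ) s, fun p hp => ?_, ?_⟩
  · obtain ⟨h3, h4, h5⟩ := h1 p hp
    refine ⟨h3, ?_, ?_⟩
    · have := h4.map (mapRingHom ι)
      rw [coe_mapRingHom, hF] at this
      exact this
    · have := _root_.map_dvd (mapRingHom ι) h5
      rw [map_sub, map_pow, coe_mapRingHom, hF] at this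
      exact this
  · obtain ⟨q, hq⟩ := h2
    have h3 := congrArg (eval₂ ι (algebraMap Ω (𝔓.adicCompletion Ω) Θ)) hq
    have h4 : eval₂ ι (algebraMap Ω (𝔓.adicCompletion Ω) Θ)
        (F.map (algebraMap M (w.adicCompletion M))) = 0 := by
      rw [← eval_map, hF, eval_emb, hΘ, map_zero]
    have h5 : eval₂ ι (algebraMap Ω (𝔓.adicCompletion Ω) Θ)
        (h.map (algebraMap M (w.adicCompletion M))) =
        algebraMap Ω (𝔓.adicCompletion Ω) (aeval Θ h) := by
      rw [← eval_map, Polynomial.map_map, emb_comp ι hι, eval_emb]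
    rw [eval₂_sub, eval₂_mul, eval₂_pow, eval₂_mul, h4, zero_mul, sub_eq_zero, h5] at h3
    rw [← h3, ← coe_eval₂RingHom, map_list_prod, List.map_map]
    congr 3
    funext p
    simp only [Function.comp_apply, map_mul, map_pow, map_neg, map_one, coe_eval₂RingHom, eval_map]
    rw [eval₂_mul, eval₂_pow, eval₂_neg, eval₂_one]

theorem one_of (hL : Lies (M := M) (Ω := Ω) w 𝔓) {D : M} (hD : w.valuation M D = 1) :
    𝔓.valuation Ω (algebraMap M Ω D) = 1 := by
  refine le_antisymm (hL.le D hD.le) ?_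
  have h1 := hL.le D⁻¹ (by rw [map_inv₀, hD, inv_one])
  rw [map_inv₀, map_inv₀] at h1
  have h0 : 𝔓.valuation Ω (algebraMap M Ω D) ≠ 0 := by
    rw [Valuation.ne_zero_iff, Ne, map_eq_zero]
    rintro rfl
    rw [map_zero] at hD
    exact zero_ne_one hD
  exact (inv_le_one₀ (zero_lt_iff.2 h0)).1 h1

/-- Roots of monic polynomials with integral coefficients are integral. -/
theorem root_le {f : M[X]} {θ : Ω} (hm : f.Monic)
    (hco : ∀ i, 𝔓.valuation Ω (algebraMap M Ω (f.coeff i)) ≤ 1) (hθ : aeval θ f = 0) :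
    𝔓.valuation Ω θ ≤ 1 := by
  have hI := Valuation.integer.integers (𝔓.valuation Ω)
  refine hI.mem_of_integral ?_
  set F : Polynomial Ω := f.map (algebraMap M Ω) with hF
  have hsub : (↑F.coeffs : Set Ω) ⊆ (𝔓.valuation Ω).integer := by
    intro x hx
    rw [Finset.mem_coe, mem_coeffs_iff] at hx
    obtain ⟨n, -, rfl⟩ := hx
    rw [hF, coeff_map]
    exact hco n
  refine ⟨F.toSubring (𝔓.valuation Ω).integer hsub, ?_, ?_⟩
  · rw [monic_toSubring]
    exact hm.map _
  · have h1 : (F.toSubring (𝔓.valuation Ω).integer hsub).map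
        (algebraMap (𝔓.valuation Ω).integer Ω) = F := map_toSubring _ _ _
    rw [← eval_map, h1, hF, eval_map]
    exact hθ

/-- The derivative of `f.scaleRoots D`. -/
theorem der_scale (f : M[X]) (D : M) (θ : Ω) :
    aeval (algebraMap M Ω D * θ) (derivative (f.scaleRoots D)) * algebraMap M Ω D =
      algebraMap M Ω D ^ f.natDegree * aeval θ (derivative f) := by
  have h1 : (f.scaleRoots D).comp (C D * X) = C (D ^ f.natDegree) * f := by
    ext i
    rw [comp_C_mul_X_coeff, coeff_scaleRoots, coeff_C_mul, mul_assoc, ← pow_add]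
    by_cases hi : i ≤ f.natDegree
    · rw [Nat.sub_add_cancel hi, mul_comm]
    · rw [coeff_eq_zero_of_natDegree_lt (not_le.1 hi), zero_mul, mul_zero]
  have h2 := congrArg derivative h1
  rw [derivative_comp, derivative_C_mul, derivative_C_mul, derivative_X, mul_one] at h2
  have h3 := congrArg (eval₂ (algebraMap M Ω) θ) h2
  rw [eval₂_mul, eval₂_mul, eval₂_C, eval₂_C, eval₂_comp, eval₂_mul, eval₂_C, eval₂_X,
    map_pow] at h3
  rw [aeval_def, aeval_def, ← h3, mul_comm]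

theorem loc1 (h2 : S_E1) (h3 : S_EXT) (h4 : Pool.Agent.N874.JM.S_CPL) :
    Pool.Agent.N874.JM.S_LOC1 := by
  intro M Ω R O _ _ _ _ _ _ _ _ _ _ _ w 𝔓 hL hw2 f h D θ hm hodd hco hθ hd hD hl hne
  obtain ⟨ι, hι, -, -⟩ := h4 M Ω R O w 𝔓 hL
  have v2 : 𝔓.valuation Ω 2 = 1 := by
    have := one_of hL hw2
    rwa [map_ofNat] at this
  obtain ⟨W, c, hc, hW⟩ := h3 O Ω 𝔓 v2
  change WV W c at hW
  have hvD : 𝔓.valuation Ω (algebraMap M Ω D) = 1 := one_of hL hD
  set Θ : Ω := algebraMap M Ω D * θ with hΘ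
  have hΘ0 : aeval Θ (f.scaleRoots D) = 0 := scaleRoots_aeval_eq_zero hθ
  obtain ⟨l, s, hl1, hl2⟩ := locF_eval ι hι hΘ0 hl
  set α := algebraMap Ω (𝔓.adicCompletion Ω) (aeval Θ h) with hα
  have hα0 : α ≠ 0 := by rw [hα, Ne, map_eq_zero]; exact hne
  set Θ' := algebraMap Ω (𝔓.adicCompletion Ω) Θ with hΘ'
  have hFm : ((f.scaleRoots D).map (emb M (Ω := Ω) 𝔓)).Monic := ((monic_scaleRoots_iff D).2 hm).map _
  have hFd : ((f.scaleRoots D).map (emb M (Ω := Ω) 𝔓)).natDegree = f.natDegree := by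
    rw [Monic.natDegree_map ((monic_scaleRoots_iff D).2 hm), natDegree_scaleRoots]
  have hder : W (ac ((derivative ((f.scaleRoots D).map (emb M (Ω := Ω) 𝔓))).eval Θ')) = 1 := by
    rw [wv_eq hc hW, derivative_map, hΘ', eval_emb, vx]
    have h3 := congrArg (𝔓.valuation Ω) (der_scale f D θ)
    rw [map_mul, map_mul, map_pow, hvD, one_pow, hd, mul_one, mul_one] at h3
    exact h3
  have hco' : ∀ i, 𝔓.valuation Ω (algebraMap M Ω (f.coeff i)) ≤ 1 := fun i => hL.le _ (hco i)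
  have key : ∀ p ∈ l, ∃ y : 𝔓.adicCompletion Ω, y ≠ 0 ∧
      W (ac ((p.1.map ι).eval Θ')) = W (ac y) ^ 2 := by
    intro p hp
    obtain ⟨h3, h4, h5⟩ := hl1 p hp
    refine h2 _ W c hc ((f.scaleRoots D).map (emb M (Ω := Ω) 𝔓)) (p.1.map ι) (p.2.map ι) Θ' hFm ?_ ?_ ?_ ?_
      hder (h3.map _) h4 h5
    · rw [hFd]; exact hodd
    · intro i
      rw [wv_le hc hW, coeff_map, vemb, coeff_scaleRoots, map_mul, map_mul, map_pow, map_pow, hvD,
        one_pow, mul_one]
      exact hco' i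
    · rw [wv_le hc hW, hΘ', vx, hΘ, map_mul, hvD, one_mul]
      exact root_le hm hco' hθ
    · rw [hΘ', eval_emb, hΘ0, map_zero]
  have key2 : ∀ l' : List ((w.adicCompletion M)[X] × (w.adicCompletion M)[X]), (∀ p ∈ l',
      ∃ y : 𝔓.adicCompletion Ω, y ≠ 0 ∧ W (ac ((p.1.map ι).eval Θ')) = W (ac y) ^ 2) →
      ∃ y : 𝔓.adicCompletion Ω, y ≠ 0 ∧
        W (ac (l'.map fun p => (-1) ^ p.1.natDegree * (p.1.map ι).eval Θ').prod) =
          W (ac y) ^ 2 := by
    intro l'
    induction l' with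
    | nil =>
      intro _
      exact ⟨1, one_ne_zero, by simp⟩
    | cons p l' ih =>
      intro hp
      obtain ⟨y, hy0, hy⟩ := ih fun q hq => hp q (List.mem_cons_of_mem _ hq)
      obtain ⟨z, hz0, hz⟩ := hp p List.mem_cons_self
      refine ⟨z * y, mul_ne_zero hz0 hy0, ?_⟩
      rw [List.map_cons, List.prod_cons]
      simp only [ac] at hy hz ⊢
      rw [map_mul, map_mul, hy, map_mul, map_mul, hz, map_mul, map_mul, map_pow, map_pow, map_neg,
        map_one, Valuation.map_neg, map_one, one_pow, one_mul, mul_pow]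
  obtain ⟨y, hy0, hy⟩ := key2 l key
  have h3 := congrArg (fun x => W (ac x)) hl2
  have hprod0 : (l.map fun p => (-1) ^ p.1.natDegree * (p.1.map ι).eval Θ').prod ≠ 0 := by
    intro h0
    rw [h0] at hy
    simp only [ac, map_zero] at hy
    have h4 : W (algebraMap _ _ y) ≠ 0 := by
      rw [Valuation.ne_zero_iff, Ne, map_eq_zero]
      exact hy0
    exact pow_ne_zero 2 h4 hy.symm
  have hs0 : s ≠ 0 := by
    intro h0
    rw [h0, zero_pow two_ne_zero] at hl2
    rcases mul_eq_zero.1 hl2 with h5 | h5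
    · exact hα0 h5
    · exact hprod0 h5
  refine ev_of 𝔓 _ (s / y) ?_
  refine wv_sq (x := α) hc hW hα0 (div_ne_zero hs0 hy0) ?_
  have h4 : W (ac (α * (l.map fun p => (-1) ^ p.1.natDegree * (p.1.map ι).eval Θ').prod)) =
      W (ac (s ^ 2)) := h3
  have hwy : W (ac y) ≠ 0 := by
    rw [Valuation.ne_zero_iff, ac, Ne, map_eq_zero]
    exact hy0
  simp only [ac] at h4 hy hwy ⊢
  rw [map_mul, map_mul, hy, map_pow, map_pow] at h4
  rw [map_div₀, map_div₀, div_pow, ← h4, mul_div_assoc, div_self (pow_ne_zero 2 hwy), mul_one]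

end Pool.Agent.N123.JM
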